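import Pool.Agent.R688.PC.Serre2

set_option autoImplicit false

/-!
# Vanishing Bass numbers of the perfect closure force regularity
-/

open CategoryTheory Abelian IsLocalRing

universe u

namespace Pool.Agent.Results.MP_c091ab_al.BassRegular

/-- The `R`-module structure on the perfect closure `R^∞` (Mathlib's `PerfectClosure R p`, the
direct limit of `R → R → R → ⋯` along the Frobenius map) given by restriction of scalars along
the canonical map from the first copy of `R`. -/
noncomputable abbrev moduleOf (R : Type u) [CommRing R] (p : ℕ) [Fact p.Prime] [CharP R p] :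
    Module R (PerfectClosure R p) :=
  Module.compHom (PerfectClosure R p) (PerfectClosure.of R p)

/-- The `R`-module `R^∞`, as an object of the category of `R`-modules. -/
noncomputable def perf (R : Type u) [CommRing R] (p : ℕ) [Fact p.Prime] [CharP R p] :
    ModuleCat.{u} R :=
  letI := moduleOf R p
  ModuleCat.of R (PerfectClosure R p)

open R688.PC in
/-- Let `(R, m, k)` be a noetherian local ring of prime characteristic `p` and dimension `d`. If
`Ext^i_R(R/m, R^∞) = 0` for some `i > d`, then `R` is regular. -/
theorem result (R : Type u) [CommRing R] [IsLocalRing R] [IsNoetherianRing R] (p : ℕ)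
    [Fact p.Prime] [CharP R p] (d : ℕ) (hd : ringKrullDim R = d) (i : ℕ) (hi : d < i)
    (h : Subsingleton (Ext (ModuleCat.of R (R ⧸ maximalIdeal R)) (perf R p) i)) :
    IsRegularLocalRing R := by
  -- the algebra structure
  let alg : Algebra R (PerfectClosure R p) := (PerfectClosure.of R p).toAlgebra
  have hE : Subsingleton (Ext (ModuleCat.of R (R ⧸ maximalIdeal R))
      (ModuleCat.of R (PerfectClosure R p)) i) := h
  -- a system of parameters
  obtain ⟨s, hs, hcard⟩ := (maximalIdeal R).exists_finset_card_eq_height_of_isNoetherianRing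
  have hlen : s.toList.length = d := by
    rw [Finset.length_toList]
    have h1 : ((maximalIdeal R).height : WithBot ℕ∞) = (d : WithBot ℕ∞) := by
      rw [IsLocalRing.maximalIdeal_height_eq_ringKrullDim, hd]
    rw [← hcard] at h1
    exact_mod_cast h1
  have hset : {x | x ∈ s.toList} = (s : Set R) := by
    ext x
    simp
  have hrad : maximalIdeal R ≤ (Ideal.span {x | x ∈ s.toList}).radical := by
    rw [hset, Ideal.radical_eq_sInf]
    refine le_sInf ?_
    rintro P ⟨hP, hPp⟩
    exact hs.2 ⟨hPp, hP⟩ (IsLocalRing.le_maximalIdeal hPp.ne_top)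
  have hall : ∀ j, i ≤ j → Subsingleton (Ext (ModuleCat.of R (R ⧸ maximalIdeal R))
      (ModuleCat.of R (PerfectClosure R p)) j) := by
    intro j hj
    refine bass_up (maximalIdeal R) s.toList ?_ hrad (PerfectClosure R p) i (by omega) hE j hj
    intro x hx
    exact hs.1.2 (Ideal.subset_span (by simpa using hx))
  -- the residue field and its perfect closure
  have hnt : Nontrivial (R ⧸ maximalIdeal R) :=
    Ideal.Quotient.nontrivial_iff.2 (maximalIdeal.isMaximal R).ne_top
  let fk : Field (R ⧸ maximalIdeal R) := Ideal.Quotient.field (maximalIdeal R)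
  have hchar : CharP (R ⧸ maximalIdeal R) p := by
    rw [CharP.charP_iff_prime_eq_zero (Fact.out : p.Prime)]
    rw [← map_natCast (Ideal.Quotient.mk (maximalIdeal R)), CharP.cast_eq_zero R p, map_zero]
  let ψ : PerfectClosure R p →+* PerfectClosure (R ⧸ maximalIdeal R) p :=
    PerfectClosure.lift R p (PerfectClosure (R ⧸ maximalIdeal R) p)
      ((PerfectClosure.of (R ⧸ maximalIdeal R) p).comp (Ideal.Quotient.mk (maximalIdeal R)))
  have hψ : ∀ x ∈ maximalIdeal R, ψ (algebraMap R (PerfectClosure R p) x) = 0 := by
    intro x hx
    have h1 := RingHom.congr_fun ((PerfectClosure.lift R p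
      (PerfectClosure (R ⧸ maximalIdeal R) p)).symm_apply_apply
      ((PerfectClosure.of (R ⧸ maximalIdeal R) p).comp (Ideal.Quotient.mk (maximalIdeal R)))) x
    have h2 : ψ (algebraMap R (PerfectClosure R p) x) =
        PerfectClosure.of (R ⧸ maximalIdeal R) p (Ideal.Quotient.mk (maximalIdeal R) x) := h1
    rw [h2, Ideal.Quotient.eq_zero_iff_mem.2 hx, map_zero]
  -- generators of the maximal ideal
  obtain ⟨t, ht⟩ := (inferInstance : IsNoetherian R R).noetherian (maximalIdeal R)
  have hkk : Subsingleton (Ext (ModuleCat.of R (R ⧸ maximalIdeal R))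
      (ModuleCat.of R (R ⧸ maximalIdeal R)) i) := by
    refine perf_main (maximalIdeal R) (p := p) (PerfectClosure (R ⧸ maximalIdeal R) p) i t.toList
      (PerfectClosure R p) (PerfectRing.bijective_frobenius (R := PerfectClosure R p) (p := p))
      hall ψ ?_ ?_
    · intro x hx
      apply hψ
      rw [← ht]
      exact Submodule.subset_span (by simpa using hx)
    · intro x hx
      rw [← ht] at hx
      have h1 : Ideal.span (t : Set R) ≤ Ideal.comap (algebraMap R (PerfectClosure R p))
          (Ideal.span {a | ∃ y ∈ t.toList, a = algebraMap R (PerfectClosure R p) y}) := by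
        rw [Ideal.span_le]
        intro y hy
        exact Ideal.subset_span ⟨y, by simpa using hy, rfl⟩
      exact h1 hx
  exact serre d R hd.le i hkk

end Pool.Agent.Results.MP_c091ab_al.BassRegular
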